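import Pool.Agent.MP_fcbc9a_lc.Defs
import Mathlib

-- part MP_fcbc9a_lc.Rank
section

/-!
Definability toolkit and elementary properties of the rank.
-/

open FirstOrder Set

namespace Pool.Agent.MP_fcbc9a_lc

universe u

variable {L : FirstOrder.Language.{u, u}} {M : Type u} [L.Structure M]

variable (L) in
/-- definable subset -/
abbrev D1 (X : Set M) : Prop := (univ : Set M).Definable₁ L X

variable (L) in
/-- definable predicate on tuples -/
abbrev DP {α : Type} (p : (α → M) → Prop) : Prop := (univ : Set M).Definable L {v | p v}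

variable (L) in
/-- definable function on tuples -/
abbrev DF {α : Type} (f : (α → M) → M) : Prop := (univ : Set M).DefinableFun L f

variable (L) in
/-- definable unary function -/
abbrev DF1 (h : M → M) : Prop := DF L fun v : Fin 1 → M => h (v 0)

section toolkit

variable {α : Type} {p q : (α → M) → Prop} {f g : (α → M) → M}

theorem DP.and (hp : DP L p) (hq : DP L q) : DP L fun v => p v ∧ q v := hp.inter hq

theorem DP.not (hp : DP L p) : DP L fun v => ¬p v := hp.compl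

theorem DP.imp (hp : DP L p) (hq : DP L q) : DP L fun v => p v → q v := by
  have := hp.compl.union hq
  convert this using 1
  ext v
  simp [imp_iff_not_or]

theorem DP.eq (hf : DF L f) (hg : DF L g) : DP L fun v => f v = g v := hf.ofPred_eq hg

theorem DF.var (i : α) : DF L fun v : α → M => v i := Set.DefinableFun.proj L

theorem DF.const (a : M) : DF L fun _ : α → M => a := L.definableFun_const α (mem_univ a)

theorem DF1.comp {h : M → M} (hh : DF1 L h) (hf : DF L f) : DF L fun v => h (f v) :=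
  Set.DefinableFun.comp (g := fun v (_ : Fin 1) => f v) (fun _ => hf) hh

theorem D1.mem {X : Set M} (hX : D1 L X) (hf : DF L f) : DP L fun v => f v ∈ X :=
  Set.Definable.preimage_map (F := fun v (_ : Fin 1) => f v) (fun _ => hf) hX

theorem DP.ex {r : (α → M) → M → Prop}
    (h : DP L fun w : α ⊕ Fin 1 → M => r (fun i => w (Sum.inl i)) (w (Sum.inr 0))) :
    DP L fun v => ∃ y, r v y := by
  have := Set.Definable.exists_of_finite h
  convert this using 1
  ext v
  simp only [mem_ofPred_eq, Sum.elim_inl, Sum.elim_inr]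
  exact ⟨fun ⟨y, hy⟩ => ⟨fun _ => y, hy⟩, fun ⟨u, hu⟩ => ⟨u 0, hu⟩⟩

theorem DP.all {r : (α → M) → M → Prop}
    (h : DP L fun w : α ⊕ Fin 1 → M => r (fun i => w (Sum.inl i)) (w (Sum.inr 0))) :
    DP L fun v => ∀ y, r v y := by
  have := Set.Definable.forall_of_finite h
  convert this using 1
  ext v
  simp only [mem_ofPred_eq, Sum.elim_inl, Sum.elim_inr]
  exact ⟨fun hy u => hy (u 0), fun hu y => hu fun _ => y⟩

theorem DF1.of_graph {h : M → M} {r : M → M → Prop} (hr : ∀ x y, r x y ↔ h x = y)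
    (H : DP L fun w : Option (Fin 1) → M => r (w (some 0)) (w none)) : DF1 L h := by
  unfold DF1 DF Set.DefinableFun
  convert H using 1
  ext w
  simp [Function.tupleGraph, hr]

theorem D1.inter {X Y : Set M} (hX : D1 L X) (hY : D1 L Y) : D1 L (X ∩ Y) :=
  Set.Definable.inter hX hY

theorem D1.union {X Y : Set M} (hX : D1 L X) (hY : D1 L Y) : D1 L (X ∪ Y) :=
  Set.Definable.union hX hY

theorem D1.diff {X Y : Set M} (hX : D1 L X) (hY : D1 L Y) : D1 L (X \ Y) :=
  Set.Definable.sdiff hX hY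

theorem D1.univ : D1 L (univ : Set M) := by
  unfold D1 Set.Definable₁
  simp

theorem D1.empty : D1 L (∅ : Set M) := by
  unfold D1 Set.Definable₁
  simp

theorem D1.image {X : Set M} {h : M → M} (hX : D1 L X) (hh : DF1 L h) : D1 L (h '' X) :=
  DP.ex (r := fun (v : Fin 1 → M) y => y ∈ X ∧ h y = v 0)
    ((hX.mem (DF.var _)).and (DP.eq (hh.comp (DF.var _)) (DF.var _)))

theorem D1.preimage {X : Set M} {h : M → M} (hX : D1 L X) (hh : DF1 L h) : D1 L (h ⁻¹' X) :=
  hX.mem hh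

theorem D1.biUnion {ι : Type*} {s : Set ι} (hs : s.Finite) {Y : ι → Set M}
    (hY : ∀ i ∈ s, D1 L (Y i)) : D1 L (⋃ i ∈ s, Y i) := by
  induction s, hs using Set.Finite.induction_on with
  | empty => simpa using D1.empty
  | insert _ _ ih =>
    rw [biUnion_insert]
    exact (hY _ (mem_insert _ _)).union (ih fun i hi => hY i (mem_insert_of_mem _ hi))

theorem D1.finite {s : Set M} (hs : s.Finite) : D1 L s := by
  rw [← biUnion_of_singleton s]
  exact D1.biUnion hs fun a _ => Set.Definable.singleton_of_mem L (mem_univ a)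

end toolkit

section rank

variable {X Y : Set M} {n : ℕ}

theorem RankGe.mono (h : RankGe L M n X) (hXY : X ⊆ Y) : RankGe L M n Y := by
  cases n with
  | zero => exact Set.Nonempty.mono hXY h
  | succ n =>
    obtain ⟨Z, hZ, hd⟩ := h
    exact ⟨Z, fun i => ⟨(hZ i).1, (hZ i).2.1.trans hXY, (hZ i).2.2⟩, hd⟩

theorem RankGe.of_succ (h : RankGe L M (n + 1) X) : RankGe L M n X := by
  obtain ⟨Z, hZ, -⟩ := h
  exact (hZ 0).2.2.mono (hZ 0).2.1

theorem RankGe.of_le {m : ℕ} (hm : m ≤ n) (h : RankGe L M n X) : RankGe L M m X := by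
  induction hm with
  | refl => exact h
  | step _ ih => exact ih h.of_succ

theorem RankGe.nonempty (h : RankGe L M n X) : X.Nonempty := h.of_le (Nat.zero_le n)

theorem rankGe_succ_of_infinite {ι : Type*} {I : Set ι} (hI : I.Infinite) {Z : ι → Set M}
    (hZ : ∀ i ∈ I, D1 L (Z i) ∧ Z i ⊆ X ∧ RankGe L M n (Z i))
    (hd : ∀ i ∈ I, ∀ j ∈ I, i ≠ j → Disjoint (Z i) (Z j)) : RankGe L M (n + 1) X :=
  ⟨fun k => Z (hI.natEmbedding I k), fun k => hZ _ (hI.natEmbedding I k).2, fun k l hkl =>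
    hd _ (hI.natEmbedding I k).2 _ (hI.natEmbedding I l).2 fun e =>
      hkl ((hI.natEmbedding I).injective (Subtype.ext e))⟩

theorem RankGe.union (hX : D1 L X) (h : RankGe L M n (X ∪ Y)) :
    RankGe L M n X ∨ RankGe L M n Y := by
  induction n generalizing X Y with
  | zero => exact union_nonempty.1 h
  | succ n ih =>
    obtain ⟨Z, hZ, hd⟩ := h
    have key : ∀ i, RankGe L M n (Z i ∩ X) ∨ RankGe L M n (Z i \ X) := fun i =>
      ih (D1.inter (hZ i).1 hX) (by rw [inter_union_sdiff]; exact (hZ i).2.2)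
    have hu : ({i | RankGe L M n (Z i ∩ X)} ∪ {i | RankGe L M n (Z i \ X)}).Infinite := by
      exact infinite_univ.mono fun i _ => key i
    rcases infinite_union.1 hu with h1 | h1
    · exact Or.inl (rankGe_succ_of_infinite h1
        (fun i hi => ⟨D1.inter (hZ i).1 hX, inter_subset_right, hi⟩)
        fun i _ j _ hij => (hd hij).mono inter_subset_left inter_subset_left)
    · exact Or.inr (rankGe_succ_of_infinite h1
        (fun i hi => ⟨D1.diff (hZ i).1 hX, fun x hx => ((hZ i).2.1 hx.1).resolve_left hx.2, hi⟩)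
        fun i _ j _ hij => (hd hij).mono sdiff_subset sdiff_subset)

theorem RankGe.diff (hY : D1 L Y) (h : RankGe L M n X) (hs : ¬RankGe L M n (X ∩ Y)) (hX : D1 L X) :
    RankGe L M n (X \ Y) :=
  (RankGe.union (hX.inter hY) (by rw [inter_union_sdiff]; exact h)).resolve_left hs

theorem RankGe.biUnion {ι : Type*} {s : Set ι} (hs : s.Finite) {Z : ι → Set M}
    (hZ : ∀ i ∈ s, D1 L (Z i)) (h : RankGe L M n (⋃ i ∈ s, Z i)) : ∃ i ∈ s, RankGe L M n (Z i) := by
  induction s, hs using Set.Finite.induction_on with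
  | empty => simpa using h.nonempty
  | insert _ _ ih =>
    rw [biUnion_insert] at h
    rcases h.union (hZ _ (mem_insert _ _)) with h | h
    · exact ⟨_, mem_insert _ _, h⟩
    · obtain ⟨i, hi, h⟩ := ih (fun i hi => hZ i (mem_insert_of_mem _ hi)) h
      exact ⟨i, mem_insert_of_mem _ hi, h⟩

theorem RankGe.image {h : M → M} (hh : DF1 L h) (hi : InjOn h X) (H : RankGe L M n X) :
    RankGe L M n (h '' X) := by
  induction n generalizing X with
  | zero => exact Set.Nonempty.image h H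
  | succ n ih =>
    obtain ⟨Z, hZ, hd⟩ := H
    exact ⟨fun i => h '' Z i, fun i => ⟨D1.image (hZ i).1 hh, image_mono (hZ i).2.1,
      ih (hi.mono (hZ i).2.1) (hZ i).2.2⟩,
      fun i j hij => disjoint_image_image fun a ha b hb e =>
        disjoint_left.1 (hd hij) ha (hi ((hZ i).2.1 ha) ((hZ j).2.1 hb) e ▸ hb)⟩

theorem RankGe.maps {h : M → M} (hh : DF1 L h) (hi : InjOn h X) (hm : MapsTo h X Y)
    (H : RankGe L M n X) : RankGe L M n Y :=
  (H.image hh hi).mono hm.image_subset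

/-- Every nonempty set has an exact rank. -/
theorem exists_rank (hfin : ∃ n, ¬RankGe L M n univ) (hX : X.Nonempty) :
    ∃ r, RankGe L M r X ∧ ¬RankGe L M (r + 1) X := by
  classical
  obtain ⟨n, hn⟩ := hfin
  have hex : ∃ k, ¬RankGe L M k X := ⟨n, fun h => hn (h.mono (subset_univ X))⟩
  have h0 : Nat.find hex ≠ 0 := fun e => by
    have := Nat.find_spec hex
    rw [e] at this
    exact this hX
  obtain ⟨r, hr⟩ := Nat.exists_eq_succ_of_ne_zero h0
  refine ⟨r, not_not.1 (Nat.find_min hex (by omega)), ?_⟩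
  have := Nat.find_spec hex
  rwa [hr] at this

/-- No paradoxical decomposition. -/
theorem paradox {X' : Set M} {f : M → M} (hf : DF1 L f) (hX' : D1 L X') (hY : D1 L Y)
    (hi : InjOn f X') (hm : MapsTo f X' X) (hYX : Y ⊆ X) (hd : Disjoint Y (f '' X'))
    (hr : RankGe L M n Y) (hs : ¬RankGe L M n (X \ X')) : RankGe L M (n + 1) X := by
  let Z : ℕ → Set M := fun k => Nat.rec Y (fun _ W => f '' (W ∩ X')) k
  have hZ0 : Z 0 = Y := rfl
  have hZs : ∀ k, Z (k + 1) = f '' (Z k ∩ X') := fun _ => rfl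
  have h1 : ∀ k, D1 L (Z k) ∧ Z k ⊆ X ∧ RankGe L M n (Z k) := by
    intro k
    induction k with
    | zero => exact ⟨hY, hYX, hr⟩
    | succ k ih =>
      rw [hZs]
      refine ⟨(ih.1.inter hX').image hf, (hm.mono_left inter_subset_right).image_subset,
        RankGe.image hf (hi.mono inter_subset_right) ?_⟩
      refine (RankGe.union (Y := Z k \ X') (ih.1.inter hX') ?_).resolve_right fun h =>
        hs (h.mono (sdiff_subset_sdiff_left ih.2.1))
      rw [inter_union_sdiff]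
      exact ih.2.2
  have h2 : ∀ k l, k < l → Disjoint (Z k) (Z l) := by
    intro k
    induction k with
    | zero =>
      intro l hl
      obtain ⟨l, rfl⟩ := Nat.exists_eq_succ_of_ne_zero hl.ne'
      rw [hZ0, hZs]
      exact hd.mono_right (image_mono inter_subset_right)
    | succ k ih =>
      intro l hl
      obtain ⟨l, rfl⟩ := Nat.exists_eq_succ_of_ne_zero (Nat.ne_zero_of_lt hl)
      rw [hZs, hZs]
      exact disjoint_image_image fun a ha b hb e =>
        disjoint_left.1 (ih l (by omega)) ha.1 (hi ha.2 hb.2 e ▸ hb.1)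
  exact ⟨Z, h1, fun k l hkl => (lt_or_gt_of_ne hkl).elim (h2 k l) fun h => (h2 l k h).symm⟩

/-- A sequence of sets of rank ≥ n with pairwise small intersections raises the rank. -/
theorem rankGe_succ_of_almost_disjoint {Z : ℕ → Set M}
    (hZ : ∀ i, D1 L (Z i) ∧ Z i ⊆ X ∧ RankGe L M n (Z i))
    (hd : ∀ i j, j < i → ¬RankGe L M n (Z i ∩ Z j)) : RankGe L M (n + 1) X := by
  have hU : ∀ i, D1 L (⋃ j ∈ Iio i, Z j) := fun i => D1.biUnion (finite_Iio i) fun j _ => (hZ j).1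
  refine ⟨fun i => Z i \ ⋃ j ∈ Iio i, Z j, fun i => ⟨(hZ i).1.diff (hU i),
    sdiff_subset.trans (hZ i).2.1, RankGe.diff (hU i) (hZ i).2.2 (fun h => ?_) (hZ i).1⟩, ?_⟩
  · rw [inter_iUnion₂] at h
    obtain ⟨j, hj, h⟩ := RankGe.biUnion (finite_Iio i) (fun j _ => (hZ i).1.inter (hZ j).1) h
    exact hd i j hj h
  · have key : ∀ i j, j < i → Disjoint (Z i \ ⋃ j ∈ Iio i, Z j) (Z j \ ⋃ k ∈ Iio j, Z k) :=
      fun i j hj => disjoint_left.2 fun x hx hx' => hx.2 (mem_biUnion hj hx'.1)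
    exact fun i j hij => (lt_or_gt_of_ne hij).elim (fun h => (key j i h).symm) (key i j)

variable (L) in
/-- a definable set of rank ≥ n which cannot be split into two such sets -/
def Irr (n : ℕ) (A : Set M) : Prop :=
  D1 L A ∧ RankGe L M n A ∧ ∀ Z, D1 L Z → RankGe L M n (A ∩ Z) → ¬RankGe L M n (A \ Z)

theorem exists_irr (hX : D1 L X) (hr : RankGe L M n X) (hn : ¬RankGe L M (n + 1) X) :
    ∃ A ⊆ X, Irr L n A := by
  by_contra hc
  push Not at hc
  have step : ∀ A : {A : Set M // D1 L A ∧ A ⊆ X ∧ RankGe L M n A},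
      ∃ B : {A : Set M // D1 L A ∧ A ⊆ X ∧ RankGe L M n A},
        B.1 ⊆ A.1 ∧ RankGe L M n (A.1 \ B.1) := by
    rintro ⟨A, h1, h2, h3⟩
    have := hc A h2
    unfold Irr at this
    push Not at this
    obtain ⟨Z, hZ, h4, h5⟩ := this h1 h3
    exact ⟨⟨A ∩ Z, h1.inter hZ, inter_subset_left.trans h2, h4⟩, inter_subset_left,
      by simpa using h5⟩
  choose F hF using step
  let A : ℕ → {A : Set M // D1 L A ∧ A ⊆ X ∧ RankGe L M n A} := fun k => F^[k] ⟨X, hX, Subset.rfl, hr⟩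
  have hA : ∀ k, A (k + 1) = F (A k) := fun k => Function.iterate_succ_apply' F k _
  have anti : Antitone fun k => (A k).1 := antitone_nat_of_succ_le fun k => by
    rw [hA]; exact (hF _).1
  refine hn ⟨fun k => (A k).1 \ (A (k + 1)).1, fun k => ⟨(A k).2.1.diff (A (k + 1)).2.1,
    sdiff_subset.trans (A k).2.2.1, by simpa only [hA] using (hF (A k)).2⟩, ?_⟩
  have key : ∀ k l, k < l → Disjoint ((A k).1 \ (A (k + 1)).1) ((A l).1 \ (A (l + 1)).1) :=
    fun k l hkl => disjoint_left.2 fun x hx hx' => hx.2 (anti (Nat.succ_le_of_lt hkl) hx'.1)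
  exact fun k l hkl => (lt_or_gt_of_ne hkl).elim (key k l) fun h => (key l k h).symm

theorem Irr.inter {A Z W : Set M} (hA : Irr L n A) (hZ : D1 L Z) (hW : D1 L W)
    (h1 : RankGe L M n (A ∩ Z)) (h2 : RankGe L M n (A ∩ W)) : RankGe L M n (A ∩ Z ∩ W) := by
  refine (RankGe.union (Y := (A ∩ Z) \ W) ((hA.1.inter hZ).inter hW) ?_).resolve_right fun h =>
    hA.2.2 W hW h2 (h.mono (sdiff_subset_sdiff_left inter_subset_left))
  rw [inter_union_sdiff]
  exact h1

end rank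

end Pool.Agent.MP_fcbc9a_lc

end

-- part MP_fcbc9a_lc.Alg
section

/-!
Uniquely 2-divisible groups with a four-group of automorphisms: the algebraic part.
-/

open Set

namespace Pool.Agent.MP_fcbc9a_lc

variable {S : Type*} [Group S]

variable (S) in
/-- squaring is a bijection -/
structure U2 : Prop where
  inj : ∀ x y : S, x * x = y * y → x = y
  surj : ∀ x : S, ∃ y, y * y = x

/-- the square root -/
noncomputable def rt (x : S) : S := Classical.epsilon fun y => y * y = x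

/-- closed under square roots -/
def RC (P : Subgroup S) : Prop := ∀ x, x * x ∈ P → x ∈ P

/-- first coordinate of the decomposition s = x z x -/
noncomputable def pp (α : MulAut S) (s : S) : S := rt (rt (α s * s⁻¹) * s)

/-- second coordinate of the decomposition s = x z x -/
noncomputable def qq (α : MulAut S) (s : S) : S := (pp α s)⁻¹ * s * (pp α s)⁻¹

namespace U2

variable (h : U2 S)
include h

theorem rt_sq (x : S) : rt x * rt x = x := Classical.epsilon_spec (h.surj x)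

theorem rt_eq {x y : S} (e : y * y = x) : rt x = y := h.inj _ _ (by rw [h.rt_sq, e])

theorem map_rt (α : MulAut S) (x : S) : α (rt x) = rt (α x) :=
  (h.rt_eq (by rw [← map_mul, h.rt_sq])).symm

theorem rt_inv (x : S) : rt x⁻¹ = (rt x)⁻¹ := h.rt_eq (by rw [← mul_inv_rev, h.rt_sq])

theorem comm_of_sq {x a : S} (e : Commute (x * x) a) : Commute x a := by
  have : a⁻¹ * x * a = x := h.inj _ _ (by
    calc a⁻¹ * x * a * (a⁻¹ * x * a) = a⁻¹ * (x * x * a) := by group
      _ = x * x := by rw [e.eq]; group)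
  calc x * a = a * (a⁻¹ * x * a) := by group
    _ = a * x := by rw [this]

theorem eq_one_of_eq_inv {x : S} (e : x = x⁻¹) : x = 1 :=
  h.inj _ _ (by rw [mul_one]; exact mul_eq_one_iff_eq_inv.2 e)

theorem rt_mem {P : Subgroup S} (hP : RC P) {x : S} (hx : x ∈ P) : rt x ∈ P :=
  hP _ (by rwa [h.rt_sq])

theorem rc_centralizer (T : Set S) : RC (Subgroup.centralizer T) := fun _ hx =>
  Subgroup.mem_centralizer_iff.2 fun t ht =>
    (h.comm_of_sq (a := t) (Subgroup.mem_centralizer_iff.1 hx t ht).symm).eq.symm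

theorem dec1 {α : MulAut S} (hα : ∀ x, α (α x) = x) (g : S) :
    ∃ c s, α c = c ∧ α s = s⁻¹ ∧ g = c * s := by
  have e := h.rt_sq ((α g)⁻¹ * g)
  have e1 : α (rt ((α g)⁻¹ * g)) = (rt ((α g)⁻¹ * g))⁻¹ := by
    rw [h.map_rt, ← h.rt_inv]; simp [hα]
  refine ⟨g * (rt ((α g)⁻¹ * g))⁻¹, _, ?_, e1, by group⟩
  rw [map_mul, map_inv, e1, inv_inv, eq_mul_inv_iff_mul_eq, mul_assoc, e]
  group

theorem dec1_unique {α : MulAut S} {c c' s s' : S} (hc : α c = c) (hc' : α c' = c')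
    (hs : α s = s⁻¹) (hs' : α s' = s'⁻¹) (e : c * s = c' * s') : s = s' := by
  have e2 := congrArg α e
  rw [map_mul, map_mul, hc, hc', hs, hs'] at e2
  apply h.inj
  calc s * s = (c * s⁻¹)⁻¹ * (c * s) := by group
    _ = s' * s' := by rw [e, e2]; group

theorem pp_eq {α : MulAut S} {x z : S} (hx : α x = x) (hz : α z = z⁻¹) :
    pp α (x * z * x) = x := by
  have e1 : rt (α (x * z * x) * (x * z * x)⁻¹) = x * z⁻¹ * x⁻¹ :=
    h.rt_eq (by rw [map_mul, map_mul, hx, hz]; group)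
  rw [pp, e1]
  exact h.rt_eq (by group)

theorem qq_eq {α : MulAut S} {x z : S} (hx : α x = x) (hz : α z = z⁻¹) :
    qq α (x * z * x) = z := by
  rw [qq, h.pp_eq hx hz]; group

theorem dec2 {α β : MulAut S} (hα : ∀ x, α (α x) = x) (hc : ∀ x, β (α x) = α (β x)) {s : S}
    (hs : β s = s⁻¹) : α (pp α s) = pp α s ∧ β (pp α s) = (pp α s)⁻¹ ∧
      α (qq α s) = (qq α s)⁻¹ ∧ β (qq α s) = (qq α s)⁻¹ := by
  obtain ⟨r, hr⟩ : ∃ r, r = rt (α s * s⁻¹) := ⟨_, rfl⟩
  have e : α s = r * r * s := by rw [hr, h.rt_sq]; group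
  have e1 : α r = r⁻¹ := by rw [hr, h.map_rt, ← h.rt_inv]; simp [hα]
  have e2 : β r = s⁻¹ * r⁻¹ * s := by
    rw [congrArg β hr, h.map_rt]
    refine h.rt_eq ?_
    rw [map_mul, map_inv, hc, hs, map_inv, e]
    group
  have e3 : α (r * s) = r * s := by rw [map_mul, e1, e]; group
  have e4 : β (r * s) = (r * s)⁻¹ := by rw [map_mul, e2, hs]; group
  have e5 : pp α s * pp α s = r * s := hr ▸ h.rt_sq _
  have a1 : α (pp α s) = pp α s := by rw [pp, ← hr, h.map_rt, e3]
  have a2 : β (pp α s) = (pp α s)⁻¹ := by rw [pp, ← hr, h.map_rt, e4, h.rt_inv]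
  refine ⟨a1, a2, ?_, ?_⟩
  · rw [qq, map_mul, map_mul, map_inv, a1, e]
    calc (pp α s)⁻¹ * (r * r * s) * (pp α s)⁻¹
        = (pp α s)⁻¹ * ((r * s) * s⁻¹ * (r * s)) * (pp α s)⁻¹ := by group
      _ = _ := by rw [← e5]; group
  · rw [qq, map_mul, map_mul, map_inv, a2, hs]; group

theorem pp_mem {α : MulAut S} {P : Subgroup S} (hP : RC P) {s : S} (hs : s ∈ P) (hs' : α s ∈ P) :
    pp α s ∈ P :=
  h.rt_mem hP (P.mul_mem (h.rt_mem hP (P.mul_mem hs' (P.inv_mem hs))) hs)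

theorem qq_mem {α : MulAut S} {P : Subgroup S} (hP : RC P) {s : S} (hs : s ∈ P) (hs' : α s ∈ P) :
    qq α s ∈ P :=
  P.mul_mem (P.mul_mem (P.inv_mem (h.pp_mem hP hs hs')) hs) (P.inv_mem (h.pp_mem hP hs hs'))

end U2

theorem pp_qq (α : MulAut S) (s : S) : pp α s * qq α s * pp α s = s := by
  rw [qq]; group

variable (S) in
/-- the three involutions of a four-group of automorphisms -/
structure Tri where
  φ : Fin 3 → MulAut S
  sq : ∀ i x, φ i (φ i x) = x
  mul : ∀ i j k, i ≠ j → j ≠ k → i ≠ k → ∀ x, φ i (φ j x) = φ k x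
  ne : ∀ i, ∃ x, φ i x ≠ x

namespace Tri

variable (T : Tri S) {i j k : Fin 3}

/-- elements fixed by the i-th involution and inverted by the other two -/
def J (i : Fin 3) : Set S := {x | T.φ i x = x ∧ ∀ j, j ≠ i → T.φ j x = x⁻¹}

/-- elements inverted by the i-th involution -/
def Sg (i : Fin 3) : Set S := {s | T.φ i s = s⁻¹}

variable {T}

theorem cover (hij : i ≠ j) (hjk : j ≠ k) (hik : i ≠ k) (l : Fin 3) : l = i ∨ l = j ∨ l = k := by
  omega

theorem third (hij : i ≠ j) : ∃ k, j ≠ k ∧ i ≠ k := by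
  revert i j
  decide

theorem comm (i j : Fin 3) (x : S) : T.φ i (T.φ j x) = T.φ j (T.φ i x) := by
  rcases eq_or_ne i j with rfl | hij
  · rfl
  · obtain ⟨k, hjk, hik⟩ := third hij
    rw [T.mul i j k hij hjk hik, T.mul j i k hij.symm hik hjk]

theorem mem_J (hij : i ≠ j) {x : S} (h1 : T.φ i x = x) (h2 : T.φ j x = x⁻¹) : x ∈ T.J i := by
  obtain ⟨k, hjk, hik⟩ := third hij
  refine ⟨h1, fun l hl => ?_⟩
  rcases cover hij hjk hik l with rfl | rfl | rfl
  · exact absurd rfl hl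
  · exact h2
  · rw [← T.mul j i l hij.symm hik hjk, h1, h2]

theorem mem_J' (hij : i ≠ j) (hjk : j ≠ k) (hik : i ≠ k) {x : S} (h1 : T.φ i x = x⁻¹)
    (h2 : T.φ j x = x⁻¹) : x ∈ T.J k :=
  mem_J hik.symm (by rw [← T.mul i j k hij hjk hik, h2, map_inv, h1, inv_inv]) h1

theorem J_sub (hij : i ≠ j) : T.J i ⊆ T.Sg j := fun _ hx => hx.2 j hij.symm

theorem one_mem_J : (1 : S) ∈ T.J i := ⟨map_one _, fun _ _ => by simp⟩

theorem inv_mem_J {x : S} (hx : x ∈ T.J i) : x⁻¹ ∈ T.J i :=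
  ⟨by rw [map_inv, hx.1], fun j hj => by rw [map_inv, hx.2 j hj]⟩

theorem sq_mem_J {x : S} (hx : x ∈ T.J i) : x * x ∈ T.J i :=
  ⟨by rw [map_mul, hx.1], fun j hj => by rw [map_mul, hx.2 j hj, mul_inv_rev]⟩

theorem φ_J (l : Fin 3) {x : S} (hx : x ∈ T.J i) : T.φ l x = x ∨ T.φ l x = x⁻¹ := by
  rcases eq_or_ne l i with rfl | hl
  · exact Or.inl hx.1
  · exact Or.inr (hx.2 l hl)

theorem conj_mem_Sg {s c : S} (hs : s ∈ T.Sg i) (hc : T.φ i c = c) : c⁻¹ * s * c ∈ T.Sg i := by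
  change T.φ i _ = _
  rw [map_mul, map_mul, map_inv, hc, show T.φ i s = s⁻¹ from hs]
  group

theorem sandwich_mem_Sg {x z : S} (hx : x ∈ T.Sg i) (hz : z ∈ T.Sg i) : x * z * x ∈ T.Sg i := by
  change T.φ i _ = _
  rw [map_mul, map_mul, show T.φ i x = x⁻¹ from hx, show T.φ i z = z⁻¹ from hz]
  group

theorem pp_mem_J (h : U2 S) (hik : i ≠ k) {s : S} (hs : s ∈ T.Sg k) : pp (T.φ i) s ∈ T.J i :=
  mem_J hik (h.dec2 (T.sq i) (comm k i) hs).1 (h.dec2 (T.sq i) (comm k i) hs).2.1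

theorem qq_mem_J (h : U2 S) (hij : i ≠ j) (hjk : j ≠ k) (hik : i ≠ k) {s : S} (hs : s ∈ T.Sg k) :
    qq (T.φ i) s ∈ T.J j :=
  mem_J' hik hjk.symm hij (h.dec2 (T.sq i) (comm k i) hs).2.2.1
    (h.dec2 (T.sq i) (comm k i) hs).2.2.2

/-- The centraliser of a set of elements which are fixed or inverted is invariant. -/
theorem φ_mem_centralizer {R : Set S} (l : Fin 3) (hR : ∀ r ∈ R, T.φ l r = r ∨ T.φ l r = r⁻¹)
    {s : S} (hs : s ∈ Subgroup.centralizer R) : T.φ l s ∈ Subgroup.centralizer R := by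
  refine Subgroup.mem_centralizer_iff.2 fun r hr => ?_
  have e : Commute (T.φ l r) (T.φ l s) :=
    (show Commute r s from Subgroup.mem_centralizer_iff.1 hs r hr).map (T.φ l)
  rcases hR r hr with e1 | e1 <;> rw [e1] at e
  · exact e
  · exact Commute.inv_left_iff.1 e

/-- Decomposition inside a centraliser. -/
theorem dec (h : U2 S) (hij : i ≠ j) (hjk : j ≠ k) (hik : i ≠ k) {R : Set S}
    (hR : ∀ r ∈ R, ∃ l, r ∈ T.J l) {s : S} (hs : s ∈ T.Sg k) (hs' : s ∈ Subgroup.centralizer R) :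
    ∃ x ∈ T.J i, ∃ y ∈ T.J j, x ∈ Subgroup.centralizer R ∧ y ∈ Subgroup.centralizer R ∧
      s = x * y * x := by
  have h1 := φ_mem_centralizer i (fun r hr => (hR r hr).elim fun _ hl => φ_J i hl) hs'
  exact ⟨_, pp_mem_J h hik hs, _, qq_mem_J h hij hjk hik hs, h.pp_mem (h.rc_centralizer R) hs' h1,
    h.qq_mem (h.rc_centralizer R) hs' h1, (pp_qq _ s).symm⟩

variable [IsSimpleGroup S]

theorem closure_Sg (h : U2 S) (i : Fin 3) : Subgroup.closure (T.Sg i) = ⊤ := by
  have hn : (Subgroup.closure (T.Sg i)).Normal := by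
    refine ⟨fun n hn g => ?_⟩
    obtain ⟨c, s, hc, hs, rfl⟩ := h.dec1 (T.sq i) g
    have h1 : s * n * s⁻¹ ∈ Subgroup.closure (T.Sg i) :=
      Subgroup.mul_mem _ (Subgroup.mul_mem _ (Subgroup.subset_closure hs) hn)
        (Subgroup.inv_mem _ (Subgroup.subset_closure hs))
    have h2 : ∀ m ∈ Subgroup.closure (T.Sg i), c * m * c⁻¹ ∈ Subgroup.closure (T.Sg i) := by
      intro m hm
      induction hm using Subgroup.closure_induction with
      | mem x hx =>
        have := conj_mem_Sg hx (c := c⁻¹) (by rw [map_inv, hc])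
        rw [inv_inv] at this
        exact Subgroup.subset_closure this
      | one => simp
      | mul x y _ _ hx hy => convert Subgroup.mul_mem _ hx hy using 1; group
      | inv x _ hx => convert Subgroup.inv_mem _ hx using 1; group
    convert h2 _ h1 using 1
    group
  refine (hn.eq_bot_or_eq_top).resolve_left fun e => ?_
  obtain ⟨g, hg⟩ := T.ne i
  obtain ⟨c, s, hc, hs, rfl⟩ := h.dec1 (T.sq i) g
  have : s = 1 := by
    rw [← Subgroup.mem_bot, ← e]
    exact Subgroup.subset_closure hs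
  exact hg (by rw [this, mul_one, hc])

theorem eq_one_of_central (h : U2 S) (T : Tri S) {w : S} (hw : ∀ g, Commute g w) : w = 1 := by
  rcases (Subgroup.normal_of_characteristic (Subgroup.center S)).eq_bot_or_eq_top with e | e
  · rw [← Subgroup.mem_bot, ← e]
    exact Subgroup.mem_center_iff.2 hw
  · exfalso
    have hc : ∀ a b : S, b * a = a * b := fun a b =>
      Subgroup.mem_center_iff.1 (e ▸ Subgroup.mem_top a) b
    have key : ∀ i x, T.φ i x = x⁻¹ := by
      intro i x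
      have hn : (MonoidHom.eqLocus (T.φ i).toMonoidHom (MonoidHom.id S)).Normal :=
        ⟨fun n hn g => by rwa [hc n g, mul_inv_cancel_right]⟩
      obtain ⟨c, s, h1, h2, rfl⟩ := h.dec1 (T.sq i) x
      rcases hn.eq_bot_or_eq_top with e1 | e1
      · have : c = 1 := by
          rw [← Subgroup.mem_bot, ← e1]
          exact h1
        rw [this, one_mul, h2]
      · obtain ⟨g, hg⟩ := T.ne i
        have : g ∈ MonoidHom.eqLocus (T.φ i).toMonoidHom (MonoidHom.id S) :=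
          e1 ▸ Subgroup.mem_top g
        exact absurd this hg
    obtain ⟨g, hg⟩ := T.ne 2
    exact hg (by rw [← T.mul 0 1 2 (by decide) (by decide) (by decide), key, key, inv_inv])

theorem eq_top_of_J (h : U2 S) (hij : i ≠ j) {P : Subgroup S} (h1 : T.J i ⊆ P) (h2 : T.J j ⊆ P) :
    P = ⊤ := by
  obtain ⟨k, hjk, hik⟩ := third hij
  rw [eq_top_iff, ← closure_Sg (T := T) h k, Subgroup.closure_le]
  intro s hs
  rw [← pp_qq (T.φ i) s]
  exact P.mul_mem (P.mul_mem (h1 (pp_mem_J h hik hs)) (h2 (qq_mem_J h hij hjk hik hs)))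
    (h1 (pp_mem_J h hik hs))

theorem eq_one_of_comm (h : U2 S) (hij : i ≠ j) {w : S} (h1 : ∀ x ∈ T.J i, Commute x w)
    (h2 : ∀ x ∈ T.J j, Commute x w) : w = 1 := by
  have := eq_top_of_J (P := Subgroup.centralizer {w}) h hij
    (fun x hx => Subgroup.mem_centralizer_singleton_iff.2 (h1 x hx))
    fun x hx => Subgroup.mem_centralizer_singleton_iff.2 (h2 x hx)
  exact eq_one_of_central h T fun g =>
    Subgroup.mem_centralizer_singleton_iff.1 (this ▸ Subgroup.mem_top g)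

variable (hJ : ∀ i, ∀ x ∈ T.J i, ∀ y ∈ T.J i, Commute x y)
include hJ

theorem ann_transfer (h : U2 S) (hij : i ≠ j) (hjk : j ≠ k) (hik : i ≠ k) {a x c : S}
    (ha : a ∈ T.J i) (hx : x ∈ T.J i) (hxQ : ∀ q ∈ T.J j, Commute a q → Commute x q)
    (hc : c ∈ T.J k) (hac : Commute a c) : Commute x c := by
  have hw : c⁻¹ * x * c ∈ T.Sg k := conj_mem_Sg (J_sub hik hx) hc.1
  have hw2 : c⁻¹ * x * c ∈ Subgroup.centralizer (T.J i) := by
    refine Subgroup.mem_centralizer_iff.2 fun t ht => ?_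
    have ht1 : c⁻¹⁻¹ * t * c⁻¹ ∈ T.Sg k := conj_mem_Sg (J_sub hik ht) (inv_mem_J hc).1
    have ht2 : c⁻¹⁻¹ * t * c⁻¹ ∈ Subgroup.centralizer {a} :=
      Subgroup.mem_centralizer_singleton_iff.2
        ((hac.inv_right.inv_right.mul_right (hJ i a ha t ht)).mul_right hac.inv_right).symm
    obtain ⟨x', hx', y, hy, -, hy', e⟩ :=
      dec h hij hjk hik (fun r hr => ⟨i, mem_singleton_iff.1 hr ▸ ha⟩) ht1 ht2
    have e1 : Commute x (c⁻¹⁻¹ * t * c⁻¹) := by
      rw [e]
      exact ((hJ i x hx x' hx').mul_right (hxQ y hy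
        (Commute.symm (Subgroup.mem_centralizer_singleton_iff.1 hy')))).mul_right (hJ i x hx x' hx')
    calc t * (c⁻¹ * x * c) = c⁻¹ * ((c⁻¹⁻¹ * t * c⁻¹) * x) * c := by group
      _ = c⁻¹ * x * c * t := by rw [← e1.eq]; group
  obtain ⟨x', hx', y, hy, -, hy', e⟩ := dec h hij hjk hik (fun r hr => ⟨i, hr⟩) hw hw2
  have hy1 : y = 1 := eq_one_of_comm h hij (fun t ht => Subgroup.mem_centralizer_iff.1 hy' t ht)
    fun t ht => hJ j t ht y hy
  rw [hy1, mul_one] at e
  have e2 : T.φ i (c⁻¹ * x * c) = c⁻¹ * x * c := by rw [e]; exact (sq_mem_J hx').1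
  rw [map_mul, map_mul, map_inv, hx.1, hc.2 i hik, inv_inv] at e2
  refine (h.comm_of_sq (x := c) (a := x) ?_).symm
  calc c * c * x = c * (c * x * c⁻¹) * c := by group
    _ = x * (c * c) := by rw [e2]; group

/-- No nontrivial commuting pair. -/
theorem free (h : U2 S) (hij : i ≠ j) {a q : S} (ha : a ∈ T.J i) (hq : q ∈ T.J j)
    (haq : Commute a q) : a = 1 ∨ q = 1 := by
  obtain ⟨k, hjk, hik⟩ := third hij
  set R : Set S := {r | (r ∈ T.J j ∨ r ∈ T.J k) ∧ Commute a r} with hR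
  set K := Subgroup.centralizer R with hK
  set K₀ := Subgroup.closure {e | e ∈ K ∧ ∃ l, e ∈ T.J l} with hK₀
  have gen : ∀ {l e}, e ∈ T.J l → e ∈ K → e ∈ K₀ := fun hl he => Subgroup.subset_closure ⟨he, _, hl⟩
  have norm : ∀ l, (∀ t ∈ T.J l, ∀ m, m ≠ l → ∀ e ∈ T.J m, e ∈ K → t⁻¹ * e * t ∈ K₀) →
      T.J l ⊆ Subgroup.normalizer (K₀ : Set S) := by
    intro l hl
    have h1 : ∀ t ∈ T.J l, ∀ e ∈ K₀, t⁻¹ * e * t ∈ K₀ := by
      intro t ht e he
      induction he using Subgroup.closure_induction with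
      | mem e he =>
        obtain ⟨he, m, hm⟩ := he
        rcases eq_or_ne m l with rfl | hml
        · rw [mul_assoc, (hJ m e hm t ht).eq, inv_mul_cancel_left]
          exact gen hm he
        · exact hl t ht m hml e hm he
      | one => simp
      | mul x y _ _ hx hy => convert Subgroup.mul_mem _ hx hy using 1; group
      | inv x _ hx => convert Subgroup.inv_mem _ hx using 1; group
    intro t ht
    refine Subgroup.mem_set_normalizer_iff.2 fun e => ⟨fun he => ?_, fun he => ?_⟩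
    · simpa using h1 _ (inv_mem_J ht) e he
    · have := h1 t ht _ he
      rwa [show t⁻¹ * (t * e * t⁻¹) * t = e by group] at this
  have n1 : T.J i ⊆ Subgroup.normalizer (K₀ : Set S) := by
    refine norm i fun t ht m hm e he heK => ?_
    have h1 : t⁻¹ * e * t ∈ T.Sg i := conj_mem_Sg (J_sub hm he) ht.1
    have h2 : t⁻¹ * e * t ∈ K := by
      refine Subgroup.mem_centralizer_iff.2 fun r hr => ?_
      have r1 : t⁻¹⁻¹ * r * t⁻¹ ∈ T.Sg i :=
        conj_mem_Sg (hr.1.elim (fun a => J_sub hij.symm a) fun a => J_sub hik.symm a)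
          (inv_mem_J ht).1
      have hat := hJ i a ha t ht
      have r2 : t⁻¹⁻¹ * r * t⁻¹ ∈ Subgroup.centralizer {a} :=
        Subgroup.mem_centralizer_singleton_iff.2
          ((hat.inv_right.inv_right.mul_right hr.2).mul_right hat.inv_right).symm
      obtain ⟨y, hy, z, hz, hy', hz', e1⟩ :=
        dec h hjk hik.symm hij.symm (fun r hr => ⟨i, mem_singleton_iff.1 hr ▸ ha⟩) r1 r2
      have c1 : Commute y e := Subgroup.mem_centralizer_iff.1 heK y
        ⟨Or.inl hy, Commute.symm (Subgroup.mem_centralizer_singleton_iff.1 hy')⟩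
      have c2 : Commute z e := Subgroup.mem_centralizer_iff.1 heK z
        ⟨Or.inr hz, Commute.symm (Subgroup.mem_centralizer_singleton_iff.1 hz')⟩
      have c3 : Commute (t⁻¹⁻¹ * r * t⁻¹) e := by
        rw [e1]; exact (c1.mul_left c2).mul_left c1
      calc r * (t⁻¹ * e * t) = t⁻¹ * ((t⁻¹⁻¹ * r * t⁻¹) * e) * t := by group
        _ = t⁻¹ * e * t * r := by rw [c3.eq]; group
    obtain ⟨y, hy, z, hz, hy', hz', e1⟩ := dec h hjk hik.symm hij.symm
      (fun r (hr : r ∈ R) => hr.1.elim (fun a => ⟨j, a⟩) fun a => ⟨k, a⟩) h1 h2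
    rw [e1]
    exact K₀.mul_mem (K₀.mul_mem (gen hy hy') (gen hz hz')) (gen hy hy')
  have n2 : T.J k ⊆ Subgroup.normalizer (K₀ : Set S) := by
    refine norm k fun t ht m hm e he heK => ?_
    have h1 : t⁻¹ * e * t ∈ T.Sg k := conj_mem_Sg (J_sub hm he) ht.1
    have h2 : t⁻¹ * e * t ∈ Subgroup.centralizer {r | r ∈ T.J k ∧ Commute a r} := by
      refine Subgroup.mem_centralizer_iff.2 fun r hr => ?_
      have c1 : Commute r t := hJ k r hr.1 t ht
      have c2 : Commute r e := Subgroup.mem_centralizer_iff.1 heK r ⟨Or.inr hr.1, hr.2⟩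
      exact (c1.inv_right.mul_right c2).mul_right c1
    obtain ⟨x, hx, y, hy, hx', hy', e1⟩ := dec h hij hjk hik (fun r hr => ⟨k, hr.1⟩) h1 h2
    have hxk : ∀ r ∈ T.J k, Commute a r → Commute x r := fun r hr hr' =>
      Commute.symm (Subgroup.mem_centralizer_iff.1 hx' r ⟨hr, hr'⟩)
    have hxK : x ∈ K := Subgroup.mem_centralizer_iff.2 fun r hr => hr.1.elim
      (fun hrj => (ann_transfer hJ h hik hjk.symm hij ha hx hxk hrj hr.2).symm)
      fun hrk => (hxk r hrk hr.2).symm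
    have hyK : y ∈ K := Subgroup.mem_centralizer_iff.2 fun r hr => hr.1.elim
      (fun hrj => hJ j r hrj y hy) fun hrk => Subgroup.mem_centralizer_iff.1 hy' r ⟨hrk, hr.2⟩
    rw [e1]
    exact K₀.mul_mem (K₀.mul_mem (gen hx hxK) (gen hy hyK)) (gen hx hxK)
  have hn : K₀.Normal := Subgroup.normalizer_eq_top_iff.1 (eq_top_of_J h hik n1 n2)
  rcases hn.eq_bot_or_eq_top with e | e
  · left
    rw [← Subgroup.mem_bot, ← e]
    exact gen ha (Subgroup.mem_centralizer_iff.2 fun r hr => hr.2.symm)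
  · right
    have : K₀ ≤ K := (Subgroup.closure_le _).2 fun e he => he.1
    exact eq_one_of_central h T fun g => Commute.symm
      (Subgroup.mem_centralizer_iff.1 (this (e ▸ Subgroup.mem_top g)) q ⟨Or.inl hq, haq⟩)

end Tri

end Pool.Agent.MP_fcbc9a_lc

end

-- part MP_fcbc9a_lc.Grp
section

/-!
Groups of finite rank: square roots, cosets, stabilisers of irreducible sets.
-/

open FirstOrder Set

namespace Pool.Agent.MP_fcbc9a_lc

universe u

variable {L : FirstOrder.Language.{u, u}} {S : Type u} [L.Structure S] [Group S]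

variable (L S) in
/-- multiplication is definable and the rank is finite -/
structure Ctx : Prop where
  mul : DF L fun v : Fin 2 → S => v 0 * v 1
  fin : ∃ n, ¬RankGe L S n univ

/-- left translate of a set -/
def tr (g : S) (X : Set S) : Set S := {x | g⁻¹ * x ∈ X}

omit [L.Structure S] in
theorem seq_of_relIndex_zero {P N : Subgroup S} (h : P.relIndex N = 0) :
    ∃ g : ℕ → S, (∀ n, g n ∈ N) ∧ ∀ m n, m ≠ n → (g m)⁻¹ * g n ∉ P := by
  have : Infinite (N ⧸ P.subgroupOf N) := Subgroup.index_eq_zero_iff_infinite.1 h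
  let e := Infinite.natEmbedding (N ⧸ P.subgroupOf N)
  refine ⟨fun n => ((e n).out : N), fun n => (e n).out.2, fun m n hmn hP => hmn (e.injective ?_)⟩
  rw [← QuotientGroup.out_eq' (e m), ← QuotientGroup.out_eq' (e n), QuotientGroup.eq]
  exact hP

omit [L.Structure S] in
theorem cover_of_relIndex {P N : Subgroup S} (h : P.relIndex N ≠ 0) :
    ∃ F : Set S, F.Finite ∧ F ⊆ N ∧ ∀ g ∈ N, ∃ t ∈ F, t⁻¹ * g ∈ P := by
  have : Finite (N ⧸ P.subgroupOf N) := Subgroup.index_ne_zero_iff_finite.1 h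
  refine ⟨range fun q : N ⧸ P.subgroupOf N => ((q.out : N) : S), finite_range _, ?_, fun g hg => ?_⟩
  · rintro _ ⟨q, rfl⟩
    exact q.out.2
  · refine ⟨_, ⟨(⟨g, hg⟩ : N), rfl⟩, ?_⟩
    have := QuotientGroup.eq.1 (QuotientGroup.out_eq' ((⟨g, hg⟩ : N) : N ⧸ P.subgroupOf N))
    exact this

namespace Ctx

variable (C : Ctx L S) {α : Type} {f g : (α → S) → S} {X Y : Set S} {n : ℕ}
include C

theorem dmul (hf : DF L f) (hg : DF L g) : DF L fun v => f v * g v :=
  Set.DefinableFun.comp (g := fun v => ![f v, g v])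
    (Fin.forall_fin_two.2 ⟨hf, hg⟩) C.mul

theorem dinv (hf : DF L f) : DF L fun v => (f v)⁻¹ :=
  DF1.comp (h := fun x : S => x⁻¹) (DF1.of_graph (r := fun x y => y * x = 1)
    (fun _ _ => by rw [mul_eq_one_iff_eq_inv, eq_comm])
    (DP.eq (C.dmul (DF.var _) (DF.var _)) (DF.const 1))) hf

theorem drt (h : U2 S) (hf : DF L f) : DF L fun v => rt (f v) :=
  DF1.comp (h := fun x : S => rt x) (DF1.of_graph (r := fun x y => y * y = x)
    (fun x _ => ⟨h.rt_eq, fun e => e ▸ h.rt_sq x⟩)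
    (DP.eq (C.dmul (DF.var _) (DF.var _)) (DF.var _))) hf

theorem dpp (h : U2 S) {σ : MulAut S} (hσ : DF1 L σ) (hf : DF L f) : DF L fun v => pp σ (f v) :=
  C.drt h (C.dmul (C.drt h (C.dmul (hσ.comp hf) (C.dinv hf))) hf)

theorem dqq (h : U2 S) {σ : MulAut S} (hσ : DF1 L σ) (hf : DF L f) : DF L fun v => qq σ (f v) :=
  C.dmul (C.dmul (C.dinv (C.dpp h hσ hf)) hf) (C.dinv (C.dpp h hσ hf))

theorem dtr (a : S) (hX : D1 L X) : D1 L (tr a X) := hX.mem (C.dmul (DF.const _) (DF.var _))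

theorem rank_tr (a : S) (h : RankGe L S n X) : RankGe L S n (tr a X) :=
  h.maps (h := fun x => a * x) (C.dmul (DF.const _) (DF.var _)) (mul_right_injective a).injOn
    fun x hx => by simpa [tr] using hx

theorem rank_of_tr (a : S) (h : RankGe L S n (tr a X)) : RankGe L S n X :=
  (C.rank_tr a⁻¹ h).mono fun x hx => by simpa [tr] using hx

theorem irr_tr (a : S) {A : Set S} (hA : Irr L n A) : Irr L n (tr a A) :=
  ⟨C.dtr a hA.1, C.rank_tr a hA.2.1, fun Z hZ h1 h2 => hA.2.2 (tr a⁻¹ Z) (C.dtr _ hZ)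
    ((C.rank_tr a⁻¹ h1).mono fun x hx => by simpa [tr] using hx)
    ((C.rank_tr a⁻¹ h2).mono fun x hx => by simpa [tr] using hx)⟩

theorem rank_of_cover {F : Set S} (hF : F.Finite) (hX : D1 L X)
    (hc : ∀ g ∈ Y, ∃ t ∈ F, t⁻¹ * g ∈ X) (h : RankGe L S n Y) : RankGe L S n X := by
  obtain ⟨t, -, ht⟩ := RankGe.biUnion hF (fun t _ => C.dtr t hX)
    (h.mono fun g hg => mem_iUnion₂.2 ((hc g hg).imp fun t ht => ⟨ht.1, ht.2⟩))
  exact C.rank_of_tr t ht

theorem rank_of_relIndex {P N : Subgroup S} (hP : D1 L (P : Set S)) (hi : P.relIndex N ≠ 0)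
    (h : RankGe L S n N) : RankGe L S n P := by
  obtain ⟨F, hF, -, hc⟩ := cover_of_relIndex hi
  exact C.rank_of_cover hF hP hc h

theorem relIndex_of_rank {P N : Subgroup S} (hP : D1 L (P : Set S)) (hle : P ≤ N)
    (h : RankGe L S n P) (hn : ¬RankGe L S (n + 1) N) : P.relIndex N ≠ 0 := by
  intro h0
  obtain ⟨g, hg, hd⟩ := seq_of_relIndex_zero h0
  refine hn ⟨fun k => tr (g k) P, fun k => ⟨C.dtr _ hP, fun x hx => ?_, C.rank_tr _ h⟩,
    fun k l hkl => disjoint_left.2 fun x hx hx' => hd k l hkl ?_⟩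
  · simpa using N.mul_mem (hg k) (hle hx)
  · simpa using P.mul_mem hx (P.inv_mem hx')

/-- The stabiliser of an irreducible set of full rank has finite index. -/
theorem exists_stab {N : Subgroup S} {A : Set S} (hA : Irr L n A) (hAN : A ⊆ N)
    (hn : ¬RankGe L S (n + 1) N) :
    ∃ H : Subgroup S, H ≤ N ∧ H.relIndex N ≠ 0 ∧ ∀ g ∈ H, RankGe L S n (A ∩ tr g A) := by
  let H : Subgroup S :=
    { carrier := {g | g ∈ N ∧ RankGe L S n (A ∩ tr g A)}
      one_mem' := ⟨N.one_mem, hA.2.1.mono fun x hx => ⟨hx, by simpa [tr] using hx⟩⟩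
      inv_mem' := fun {g} hg => ⟨N.inv_mem hg.1, (C.rank_tr g⁻¹ hg.2).mono fun x hx => by
        simpa [tr, and_comm] using hx⟩
      mul_mem' := fun {g h} hg hh => ⟨N.mul_mem hg.1 hh.1,
        ((C.irr_tr g hA).inter hA.1 (C.dtr (g * h) hA.1) (inter_comm _ _ ▸ hg.2)
          ((C.rank_tr g hh.2).mono fun x hx => by simpa [tr, mul_assoc] using hx)).mono
          fun x hx => ⟨hx.1.2, hx.2⟩⟩ }
  refine ⟨H, fun g hg => hg.1, fun h0 => ?_, fun g hg => hg.2⟩
  obtain ⟨g, hg, hd⟩ := seq_of_relIndex_zero h0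
  refine hn (rankGe_succ_of_almost_disjoint (Z := fun k => tr (g k) A)
    (fun k => ⟨C.dtr _ hA.1, fun x hx => ?_, C.rank_tr _ hA.2.1⟩) fun k l hkl h =>
      hd k l hkl.ne' ⟨N.mul_mem (N.inv_mem (hg k)) (hg l), ?_⟩)
  · simpa using N.mul_mem (hg k) (hAN hx)
  · exact (C.rank_tr (g k)⁻¹ h).mono fun x hx => by simpa [tr, mul_assoc] using hx

/-- In an infinite simple group a generic set meets all its translates. -/
theorem meets_tr [Infinite S] [IsSimpleGroup S] {W F : Set S} (hW : D1 L W) (hF : F.Finite)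
    (hc : ∀ g, ∃ t ∈ F, t⁻¹ * g ∈ W) (f : S) : ∃ x ∈ W, f * x ∈ W := by
  obtain ⟨r, hr, hr'⟩ := exists_rank C.fin (univ_nonempty (α := S))
  have h1 : RankGe L S r W := C.rank_of_cover hF hW (fun g _ => hc g) hr
  obtain ⟨A, hAW, hA⟩ := exists_irr hW h1 fun h => hr' (h.mono (subset_univ W))
  obtain ⟨H, -, hH, hst⟩ := C.exists_stab (N := ⊤) hA (subset_univ A) hr'
  rw [Subgroup.relIndex_top_right] at hH
  have : H.FiniteIndex := ⟨hH⟩
  have h2 : H.normalCore = ⊤ := by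
    refine (H.normalCore_normal.eq_bot_or_eq_top).resolve_left fun e => ?_
    have := H.finiteIndex_normalCore.index_ne_zero
    rw [e, Subgroup.index_bot] at this
    exact this Nat.card_eq_zero_of_infinite
  obtain ⟨x, hx, hx'⟩ := (hst f⁻¹ (H.normalCore_le (h2 ▸ Subgroup.mem_top _))).nonempty
  exact ⟨x, hAW hx, hAW (by simpa [tr] using hx')⟩

/-- The centraliser of a definable involutive automorphism has no proper definable subgroup of
finite index. -/
theorem fixed_le [Infinite S] [IsSimpleGroup S] (h : U2 S) {σ : MulAut S} (hσ : DF1 L σ)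
    (hσ2 : ∀ x, σ (σ x) = x) {M : Subgroup S} (hM : D1 L (M : Set S)) (hM' : ∀ m ∈ M, σ m = m)
    {F : Set S} (hF : F.Finite) (hc : ∀ c, σ c = c → ∃ t ∈ F, t⁻¹ * c ∈ M) {c : S}
    (hcσ : σ c = c) : c ∈ M := by
  have hW : D1 L {g | ∃ s, σ s = s⁻¹ ∧ g * s⁻¹ ∈ M} :=
    DP.ex (r := fun (v : Fin 1 → S) s => σ s = s⁻¹ ∧ v 0 * s⁻¹ ∈ M)
      ((DP.eq (hσ.comp (DF.var _)) (C.dinv (DF.var _))).and
        (hM.mem (C.dmul (DF.var _) (C.dinv (DF.var _)))))
  obtain ⟨x, ⟨s, hs, hx⟩, s', hs', hx'⟩ := C.meets_tr hW hF (fun g => by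
    obtain ⟨c, s, h1, h2, rfl⟩ := h.dec1 hσ2 g
    obtain ⟨t, ht, h3⟩ := hc c h1
    exact ⟨t, ht, s, h2, by simpa [mul_assoc] using h3⟩) c
  have e : s = s' := h.dec1_unique (c := c * (x * s⁻¹)) (c' := c * x * s'⁻¹)
    (by rw [map_mul, hcσ, hM' _ hx]) (hM' _ hx') hs hs' (by group)
  subst e
  simpa [mul_assoc] using M.mul_mem hx' (M.inv_mem hx)

/-- A group of finite rank without involutions is uniquely 2-divisible. -/
theorem u2 (hinv : ∀ x : S, x * x = 1 → x = 1) : U2 S := by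
  have key : ∀ x : S, ∃ y, y * y = x ∧ ∀ w, w * x = x * w → y * w = w * y := by
    intro u
    by_contra hu
    set Z : Set S := {z | z * u = u * z ∧ ∀ w, w * u = u * w → z * w = w * z} with hZ
    have hD : D1 L Z := (DP.eq (C.dmul (DF.var _) (DF.const _)) (C.dmul (DF.const _) (DF.var _))).and
      (DP.all (r := fun (v : Fin 1 → S) w => w * u = u * w → v 0 * w = w * v 0)
        ((DP.eq (C.dmul (DF.var _) (DF.const _)) (C.dmul (DF.const _) (DF.var _))).imp
          (DP.eq (C.dmul (DF.var _) (DF.var _)) (C.dmul (DF.var _) (DF.var _)))))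
    have huZ : u ∈ Z := ⟨rfl, fun w hw => hw.symm⟩
    have hmul : ∀ a ∈ Z, ∀ b ∈ Z, a * b ∈ Z := fun a ha b hb =>
      ⟨Commute.mul_left ha.1 hb.1, fun w hw => Commute.mul_left (ha.2 w hw) (hb.2 w hw)⟩
    have hinj : InjOn (fun z : S => z * z) Z := fun a ha b hb e => by
      have hc : Commute a b := ha.2 b hb.1
      have e' : a * a = b * b := e
      refine mul_inv_eq_one.1 (hinv _ ?_)
      calc a * b⁻¹ * (a * b⁻¹) = a * (b⁻¹ * a) * b⁻¹ := by group
        _ = a * a * (b * b)⁻¹ := by rw [← hc.inv_right.eq]; group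
        _ = 1 := by rw [e']; group
    obtain ⟨r, hr, hr'⟩ := exists_rank C.fin ⟨u, huZ⟩
    have hf : DF1 L fun z : S => z * z := C.dmul (DF.var _) (DF.var _)
    have hg : DF1 L fun z : S => u * (z * z) := C.dmul (DF.const _) hf
    refine hr' (paradox hf hD (hD.image hg) hinj (fun a ha => hmul a ha a ha) ?_ ?_
      (hr.image hg fun a ha b hb e => hinj ha hb (mul_left_cancel e))
      fun h => by simpa using h.nonempty)
    · rintro _ ⟨a, ha, rfl⟩
      exact hmul u huZ _ (hmul a ha a ha)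
    · refine disjoint_image_image fun a ha b hb e => hu ⟨b * a⁻¹, ?_, fun w hw =>
        Commute.mul_left (hb.2 w hw) (Commute.inv_left (ha.2 w hw))⟩
      have hc : Commute a b := ha.2 b hb.1
      have e' : u * (a * a) = b * b := e
      calc b * a⁻¹ * (b * a⁻¹) = b * (a⁻¹ * b) * a⁻¹ := by group
        _ = b * b * (a * a)⁻¹ := by rw [hc.inv_left.eq]; group
        _ = u := by rw [← e']; group
  refine ⟨fun x y e => ?_, fun x => (key x).imp fun _ h => h.1⟩
  obtain ⟨ρ, hρ, hc⟩ := key (y * y)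
  have aux : ∀ z : S, z * z = y * y → z = ρ := fun z hz => by
    have c : Commute ρ z := hc z (by rw [← hz]; group)
    refine mul_inv_eq_one.1 (hinv _ ?_)
    calc z * ρ⁻¹ * (z * ρ⁻¹) = z * (ρ⁻¹ * z) * ρ⁻¹ := by group
      _ = z * z * (ρ * ρ)⁻¹ := by rw [c.inv_left.eq]; group
      _ = 1 := by rw [hz, hρ]; group
  rw [aux x e, aux y rfl]

/-- Descending chain condition for definable subgroups of finite index. -/
theorem exists_min {N : Subgroup S} (hN : D1 L (N : Set S)) :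
    ∃ P₀ : Subgroup S, P₀ ≤ N ∧ D1 L (P₀ : Set S) ∧ P₀.relIndex N ≠ 0 ∧
      ∀ P : Subgroup S, D1 L (P : Set S) → P.relIndex N ≠ 0 → P₀ ≤ P := by
  by_contra hc
  push Not at hc
  obtain ⟨r, hr, hr'⟩ := exists_rank C.fin (X := (N : Set S)) ⟨1, N.one_mem⟩
  have step : ∀ P : {P : Subgroup S // P ≤ N ∧ D1 L (P : Set S) ∧ P.relIndex N ≠ 0},
      ∃ Q : {P : Subgroup S // P ≤ N ∧ D1 L (P : Set S) ∧ P.relIndex N ≠ 0},
        Q.1 ≤ P.1 ∧ RankGe L S r ((P.1 : Set S) \ Q.1) := by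
    rintro ⟨P, h1, h2, h3⟩
    obtain ⟨Q, h4, h5, h6⟩ := hc P h1 h2 h3
    obtain ⟨g, hg, hg'⟩ := SetLike.not_le_iff_exists.1 h6
    have h7 : D1 L ((P ⊓ Q : Subgroup S) : Set S) := h2.inter h4
    have h8 := Subgroup.relIndex_inf_ne_zero h3 h5
    refine ⟨⟨P ⊓ Q, inf_le_left.trans h1, h7, h8⟩, inf_le_left,
      (C.rank_tr g (C.rank_of_relIndex h7 h8 hr)).mono fun x hx => ⟨?_, fun hx' => hg' ?_⟩⟩
    · simpa using P.mul_mem hg hx.1
    · simpa using Q.mul_mem hx'.2 (Q.inv_mem hx.2)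
  choose F hF using step
  let A : ℕ → {P : Subgroup S // P ≤ N ∧ D1 L (P : Set S) ∧ P.relIndex N ≠ 0} :=
    fun k => F^[k] ⟨N, le_rfl, hN, by simp⟩
  have hA : ∀ k, A (k + 1) = F (A k) := fun k => Function.iterate_succ_apply' F k _
  have anti : Antitone fun k => (A k).1 := antitone_nat_of_succ_le fun k => by
    rw [hA]; exact (hF _).1
  refine hr' ⟨fun k => ((A k).1 : Set S) \ (A (k + 1)).1, fun k =>
    ⟨(A k).2.2.1.diff (A (k + 1)).2.2.1, sdiff_subset.trans (A k).2.1,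
      by simpa only [hA] using (hF (A k)).2⟩, ?_⟩
  have key : ∀ k l, k < l →
      Disjoint (((A k).1 : Set S) \ (A (k + 1)).1) (((A l).1 : Set S) \ (A (l + 1)).1) :=
    fun k l hkl => disjoint_left.2 fun x hx hx' => hx.2 (anti (Nat.succ_le_of_lt hkl) hx'.1)
  exact fun k l hkl => (lt_or_gt_of_ne hkl).elim (key k l) fun h => (key l k h).symm

end Ctx

end Pool.Agent.MP_fcbc9a_lc

end

-- part MP_fcbc9a_lc.Main
section

/-!
The main theorem.
-/

open FirstOrder Set

namespace Pool.Agent.MP_fcbc9a_lc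

universe u

section alg

variable {S : Type u} [Group S] {T : Tri S} {i j k : Fin 3}

/-- x y x ↦ y⁻¹ x y -/
noncomputable def mm (σ : MulAut S) (s : S) : S := (qq σ s)⁻¹ * pp σ s * qq σ s

theorem conj_ne (h : U2 S) {x u : S} (hx : x ∈ T.J i) (hu : u ∈ T.Sg i)
    (hz : u⁻¹ * x * u ∈ T.Sg i) : x = 1 := by
  have e : T.φ i (u⁻¹ * x * u) = (u⁻¹ * x * u)⁻¹ := hz
  rw [map_mul, map_mul, map_inv, hx.1, show T.φ i u = u⁻¹ from hu, inv_inv] at e
  have e1 : u * u * x = x⁻¹ * (u * u) := by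
    calc u * u * x = u * (u * x * u⁻¹) * u := by group
      _ = _ := by rw [e]; group
  have e2 : Commute (u * u * (u * u)) x := by
    have e3 : u * u * x⁻¹ = x * (u * u) := by
      calc u * u * x⁻¹ = x * (x⁻¹ * (u * u)) * x⁻¹ := by group
        _ = _ := by rw [← e1]; group
    calc u * u * (u * u) * x = u * u * (u * u * x) := by group
      _ = u * u * x⁻¹ * (u * u) := by rw [e1]; group
      _ = x * (u * u * (u * u)) := by rw [e3]; group
  have e4 := (h.comm_of_sq e2).eq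
  rw [e1] at e4
  exact h.eq_one_of_eq_inv (mul_right_cancel e4).symm

theorem pp_ne_one (h : U2 S) (hij : i ≠ j) (hjk : j ≠ k) (hik : i ≠ k) {s : S}
    (hs : s ∈ T.Sg k \ T.J j) : pp (T.φ i) s ≠ 1 := fun e => hs.2 (by
  have := pp_qq (T.φ i) s
  rw [e, one_mul, mul_one] at this
  exact this ▸ Tri.qq_mem_J h hij hjk hik hs.1)

theorem mm_mem (h : U2 S) (hij : i ≠ j) (hjk : j ≠ k) (hik : i ≠ k) {s : S} (hs : s ∈ T.Sg k) :
    mm (T.φ i) s ∈ T.Sg j :=
  Tri.conj_mem_Sg (Tri.J_sub hij (Tri.pp_mem_J h hik hs)) (Tri.qq_mem_J h hij hjk hik hs).1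

theorem mm_notMem (h : U2 S) (hij : i ≠ j) (hjk : j ≠ k) (hik : i ≠ k) {s : S}
    (hs : s ∈ T.Sg k \ T.J j) : mm (T.φ i) s ∉ T.Sg i := fun e =>
  pp_ne_one h hij hjk hik hs (conj_ne h (Tri.pp_mem_J h hik hs.1)
    (Tri.J_sub hij.symm (Tri.qq_mem_J h hij hjk hik hs.1)) e)

variable (hJ : ∀ i, ∀ x ∈ T.J i, ∀ y ∈ T.J i, Commute x y)
include hJ

theorem div_mem_J {y y' : S} (hy : y ∈ T.J j) (hy' : y' ∈ T.J j) : y * y'⁻¹ ∈ T.J j :=
  ⟨by rw [map_mul, map_inv, hy.1, hy'.1], fun l hl => by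
    rw [map_mul, map_inv, hy.2 l hl, hy'.2 l hl, inv_inv, mul_inv_rev, inv_inv,
      (hJ j y hy y' hy').inv_left.eq]⟩

theorem mm_disj (h : U2 S) (hij : i ≠ j) (hjk : j ≠ k) (hik : i ≠ k) {s s' : S}
    (hs : s ∈ T.Sg k \ T.J j) (hs' : s' ∈ T.Sg i) : mm (T.φ k) s' ≠ mm (T.φ i) s := fun e => by
  have hy := Tri.qq_mem_J h hij hjk hik hs.1
  have hy' := Tri.qq_mem_J h hjk.symm hij.symm hik.symm hs'
  refine pp_ne_one h hij hjk hik hs (conj_ne h (Tri.pp_mem_J h hik hs.1)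
    (Tri.J_sub hij.symm (div_mem_J hJ hy hy')) ?_)
  have e1 : (qq (T.φ i) s * (qq (T.φ k) s')⁻¹)⁻¹ * pp (T.φ i) s * (qq (T.φ i) s * (qq (T.φ k) s')⁻¹)
      = qq (T.φ k) s' * mm (T.φ i) s * (qq (T.φ k) s')⁻¹ := by rw [mm]; group
  rw [e1, ← e, mm, show ∀ a b : S, a * (a⁻¹ * b * a) * a⁻¹ = b from fun a b => by group]
  exact Tri.J_sub hik.symm (Tri.pp_mem_J h hik.symm hs')

theorem mm_inj [IsSimpleGroup S] (h : U2 S) (hij : i ≠ j) (hjk : j ≠ k) (hik : i ≠ k) :
    InjOn (mm (T.φ i)) (T.Sg k \ T.J j) := by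
  intro s hs s' hs' e
  have hx := Tri.pp_mem_J h hik hs.1
  have hx' := Tri.pp_mem_J h hik hs'.1
  have hu := div_mem_J hJ (Tri.qq_mem_J h hij hjk hik hs.1) (Tri.qq_mem_J h hij hjk hik hs'.1)
  have hx1 := pp_ne_one h hij hjk hik hs
  rw [← pp_qq (T.φ i) s, ← pp_qq (T.φ i) s']
  rw [mm, mm] at e
  generalize pp (T.φ i) s = x, pp (T.φ i) s' = x', qq (T.φ i) s = y, qq (T.φ i) s' = y' at *
  have e1 : (y * y'⁻¹)⁻¹ * x * (y * y'⁻¹) = x' := by
    calc _ = y' * (y⁻¹ * x * y) * y'⁻¹ := by group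
      _ = x' := by rw [e]; group
  generalize hw : y * y'⁻¹ = w at *
  have e2 := congrArg (T.φ i) e1
  rw [map_mul, map_mul, map_inv, hx.1, hx'.1, hu.2 i hij, inv_inv, ← e1] at e2
  have e3 : Commute w x := h.comm_of_sq (by
    calc w * w * x = w * (w * x * w⁻¹) * w := by group
      _ = x * (w * w) := by rw [e2]; group)
  have e4 : w = 1 := (Tri.free hJ h hij hx hu e3.symm).resolve_left hx1
  rw [e4] at hw e1
  rw [mul_inv_eq_one.1 hw, ← e1]
  group

end alg

variable {L : FirstOrder.Language.{u, u}} {S : Type u} [L.Structure S] [Group S]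
  [Infinite S] [IsSimpleGroup S] (C : Ctx L S) (h : U2 S) {T : Tri S} (hT : ∀ i, DF1 L (T.φ i))
  {i j k : Fin 3}
include C h hT

omit [Infinite S] [IsSimpleGroup S] h in
theorem dSg (i : Fin 3) : D1 L (T.Sg i) := DP.eq (hT i) (C.dinv (DF.var _))

omit [Infinite S] [IsSimpleGroup S] h in
theorem dJ (i : Fin 3) : D1 L (T.J i) := by
  obtain ⟨j, hij⟩ := exists_ne i
  have : T.J i = {x | T.φ i x = x} ∩ T.Sg j :=
    Set.ext fun x => ⟨fun hx => ⟨hx.1, hx.2 j hij⟩, fun hx => Tri.mem_J hij.symm hx.1 hx.2⟩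
  rw [this]
  exact D1.inter (DP.eq (hT i) (DF.var _)) (dSg C hT j)

omit [Infinite S] [IsSimpleGroup S] in
theorem dmm (i : Fin 3) : DF1 L (mm (T.φ i)) :=
  C.dmul (C.dmul (C.dinv (C.dqq h (hT i) (DF.var _))) (C.dpp h (hT i) (DF.var _)))
    (C.dqq h (hT i) (DF.var _))

omit [Infinite S] [IsSimpleGroup S] C hT in
theorem dec_fixed (hij : i ≠ j) {c : S} (hc : T.φ i c = c) :
    ∃ x ∈ T.J i, ∃ d, T.φ i d = d ∧ T.φ j d = d ∧ c = x * d := by
  obtain ⟨d, x, hd, hx, e⟩ := h.dec1 (T.sq j) c⁻¹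
  have e1 : T.φ i d * T.φ i x = d * x := by rw [← map_mul, ← e, map_inv, hc]
  have e2 : T.φ i x = x := h.dec1_unique (α := T.φ j) (by rw [Tri.comm, hd]) hd
    (by rw [Tri.comm, hx, map_inv]) hx e1
  rw [e2] at e1
  refine ⟨x⁻¹, Tri.inv_mem_J (Tri.mem_J hij e2 hx), d⁻¹, by rw [map_inv, mul_right_cancel e1],
    by rw [map_inv, hd], by rw [← mul_inv_rev, ← e, inv_inv]⟩

theorem J_infinite (hJ : ∀ i, ∀ x ∈ T.J i, ∀ y ∈ T.J i, Commute x y) (i : Fin 3) :
    (T.J i).Infinite := by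
  intro hfin
  obtain ⟨j, hij⟩ := exists_ne i
  have h1 : ∀ x ∈ T.J i, x = 1 := by
    intro x hx
    let D : Subgroup S := MonoidHom.eqLocus (T.φ i).toMonoidHom (MonoidHom.id S) ⊓
      MonoidHom.eqLocus (T.φ j).toMonoidHom (MonoidHom.id S)
    have hD : D1 L (D : Set S) := (DP.eq (hT i) (DF.var _)).and (DP.eq (hT j) (DF.var _))
    have : x ∈ D := C.fixed_le h (hT i) (T.sq i) hD (fun m hm => hm.1) hfin (fun c hc => by
      obtain ⟨x, hx, d, h1, h2, rfl⟩ := dec_fixed h hij.symm hc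
      exact ⟨x, hx, by rw [inv_mul_cancel_left]; exact ⟨h1, h2⟩⟩) hx.1
    exact h.eq_one_of_eq_inv ((show T.φ j x = x from this.2).symm.trans (hx.2 j hij))
  have h2 : ∀ y ∈ T.J j, y = 1 := fun y hy => Tri.eq_one_of_comm h hij.symm
    (fun x hx => h1 x hx ▸ Commute.one_left y) fun x hx => hJ j x hx y hy
  exact bot_ne_top (Tri.eq_top_of_J (P := ⊥) h hij.symm h1 h2)

theorem not_comm : ¬∀ i, ∀ x ∈ T.J i, ∀ y ∈ T.J i, Commute x y := by
  intro hJ
  have small : ∀ {i j k : Fin 3}, i ≠ j → j ≠ k → i ≠ k → ∀ n,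
      RankGe L S n (T.J j) → RankGe L S (n + 1) (T.Sg k) := by
    intro i j k hij hjk hik n hn
    have hd : ∀ x : S, DF1 L fun z => x * z * x := fun x =>
      C.dmul (C.dmul (DF.const _) (DF.var _)) (DF.const _)
    refine rankGe_succ_of_infinite (J_infinite C h hT hJ i)
      (Z := fun x => (fun z => x * z * x) '' T.J j) (fun x hx => ⟨(dJ C hT j).image (hd x), ?_,
        hn.image (hd x) fun a _ b _ e => mul_left_cancel (mul_right_cancel e)⟩)
      fun x hx x' hx' hne => disjoint_image_image fun a ha b hb e => hne ?_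
    · rintro _ ⟨z, hz, rfl⟩
      exact Tri.sandwich_mem_Sg (Tri.J_sub hik hx) (Tri.J_sub hjk hz)
    · have e' : x * a * x = x' * b * x' := e
      rw [← h.pp_eq hx.1 (ha.2 i hij), e', h.pp_eq hx'.1 (hb.2 i hij)]
  have transfer : ∀ {i j k : Fin 3}, i ≠ j → j ≠ k → i ≠ k → ∀ n,
      RankGe L S n (T.Sg k) → RankGe L S n (T.Sg j) := by
    intro i j k hij hjk hik n hn
    obtain ⟨r, hr, hr'⟩ := exists_rank C.fin hn.nonempty
    have hnr : n ≤ r := by
      by_contra hlt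
      exact hr' (hn.of_le (by omega))
    exact ((hr.diff (dJ C hT j) (fun h1 => hr' (small hij hjk hik r (h1.mono inter_subset_right)))
      (dSg C hT k)).maps (dmm C h hT i) (mm_inj hJ h hij hjk hik)
      fun s hs => mm_mem h hij hjk hik hs.1).of_le hnr
  have h01 : (0 : Fin 3) ≠ 1 := by decide
  have h12 : (1 : Fin 3) ≠ 2 := by decide
  have h02 : (0 : Fin 3) ≠ 2 := by decide
  obtain ⟨r, hr, hr'⟩ := exists_rank C.fin (X := T.Sg 1) ⟨1, Tri.J_sub h01 Tri.one_mem_J⟩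
  have hm : MapsTo (mm (T.φ 0)) (T.Sg 1 \ T.J 2) (T.Sg 2 \ T.J 1) := fun s hs =>
    ⟨mm_mem h h02 h12.symm h01 hs.1, fun e => mm_notMem h h02 h12.symm h01 hs (Tri.J_sub h01.symm e)⟩
  refine hr' (paradox (f := fun s => mm (T.φ 0) (mm (T.φ 0) s)) (X' := T.Sg 1 \ T.J 2)
    (Y := mm (T.φ 2) '' (T.Sg 0 \ T.J 1)) ((dmm C h hT 0).comp (dmm C h hT 0))
    ((dSg C hT 1).diff (dJ C hT 2)) (((dSg C hT 0).diff (dJ C hT 1)).image (dmm C h hT 2))
    ((mm_inj hJ h h01 h12 h02).comp (mm_inj hJ h h02 h12.symm h01) hm)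
    (fun s hs => mm_mem h h01 h12 h02 (hm hs).1) ?_
    (disjoint_image_image fun a ha b hb => mm_disj hJ h h01 h12 h02 (hm hb) ha.1)
    (RankGe.image (dmm C h hT 2) (mm_inj hJ h h12.symm h01.symm h02.symm)
      ((transfer h02.symm h01 h12.symm r hr).diff (dJ C hT 1) (fun h1 => hr'
        (transfer h01 h12 h02 _ (small h01 h12 h02 r (h1.mono inter_subset_right)))) (dSg C hT 0)))
    fun h1 => hr' (small h02 h12.symm h01 r (h1.mono fun x hx => not_not.1 fun e => hx.2 ⟨hx.1, e⟩)))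
  rintro _ ⟨s, hs, rfl⟩
  exact mm_mem h h12.symm h01.symm h02.symm hs.1

/-- If the subgroup generated by J i has finitely many fixed points, it is abelian. -/
theorem comm_of_finite (hij : i ≠ j)
    (hF : {x | x ∈ Subgroup.closure (T.J i) ∧ T.φ j x = x}.Finite) :
    ∀ x ∈ T.J i, ∀ y ∈ T.J i, Commute x y := by
  set N := Subgroup.closure (T.J i) with hN
  set F := {x | x ∈ N ∧ T.φ j x = x} with hFdef
  have hJN : T.J i ⊆ N := Subgroup.subset_closure
  have hNi : ∀ g ∈ N, T.φ i g = g := fun g hg =>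
    (Subgroup.closure_le (MonoidHom.eqLocus (T.φ i).toMonoidHom (MonoidHom.id S))).2
      (fun x hx => hx.1) hg
  have cover : ∀ g ∈ N, ∃ t ∈ F, t⁻¹ * g ∈ T.J i := by
    intro g hg
    obtain ⟨x, hx, d, -, h2, e⟩ := dec_fixed h hij (hNi _ (N.inv_mem hg))
    have e1 : d⁻¹ = g * x := by rw [← inv_inv g, e]; group
    refine ⟨d⁻¹, ⟨e1 ▸ N.mul_mem hg (hJN hx), by rw [map_inv, h2]⟩, ?_⟩
    rw [e1, mul_inv_rev, inv_mul_cancel_right]
    exact Tri.inv_mem_J hx
  have hND : D1 L (N : Set S) := by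
    have : (N : Set S) = ⋃ t ∈ F, tr t (T.J i) := Set.ext fun g =>
      ⟨fun hg => mem_iUnion₂.2 ((cover g hg).imp fun t ht => ⟨ht.1, ht.2⟩), fun hg => by
        obtain ⟨t, ht, hg⟩ := mem_iUnion₂.1 hg
        simpa using N.mul_mem ht.1 (hJN hg)⟩
    rw [this]
    exact D1.biUnion hF fun t _ => C.dtr t (dJ C hT i)
  obtain ⟨P, hPN, hPD, hPi, hP⟩ := C.exists_min hND
  have inv : ∀ σ : MulAut S, DF1 L σ → (∀ x ∈ T.J i, σ x ∈ T.J i) → ∀ p ∈ P, σ p ∈ P := by
    intro σ hσ hσJ p hp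
    have h1 : N ≤ N.comap σ.toMonoidHom := (Subgroup.closure_le _).2 fun x hx => hJN (hσJ x hx)
    exact hP (P.comap σ.toMonoidHom) (hPD.preimage hσ) (fun h0 =>
      Subgroup.relIndex_comap_ne_zero σ.toMonoidHom hPi
        (Subgroup.relIndex_eq_zero_of_le_right h1 h0)) hp
  have invD : ∀ d, T.φ i d = d → T.φ j d = d → ∀ p ∈ P, d * p * d⁻¹ ∈ P := fun d h1 h2 =>
    inv (MulAut.conj d) (C.dmul (C.dmul (DF.const _) (DF.var _)) (DF.const _)) fun x hx =>
      Tri.mem_J hij (by simp [h1, hx.1]) (by simp [h2, hx.2 j hij.symm, mul_assoc])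
  have invj : ∀ p ∈ P, T.φ j p ∈ P :=
    inv (T.φ j) (hT j) fun x hx => hx.2 j hij.symm ▸ Tri.inv_mem_J hx
  let M : Subgroup S :=
    { carrier := {g | ∃ d, (T.φ i d = d ∧ T.φ j d = d) ∧ g * d⁻¹ ∈ P}
      one_mem' := ⟨1, ⟨map_one _, map_one _⟩, by simp⟩
      inv_mem' := by
        rintro g ⟨d, ⟨h1, h2⟩, hg⟩
        refine ⟨d⁻¹, ⟨by rw [map_inv, h1], by rw [map_inv, h2]⟩, ?_⟩
        convert invD d⁻¹ (by rw [map_inv, h1]) (by rw [map_inv, h2]) _ (P.inv_mem hg) using 1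
        group
      mul_mem' := by
        rintro g g' ⟨d, ⟨h1, h2⟩, hg⟩ ⟨d', ⟨h1', h2'⟩, hg'⟩
        refine ⟨d * d', ⟨by rw [map_mul, h1, h1'], by rw [map_mul, h2, h2']⟩, ?_⟩
        convert P.mul_mem hg (invD d h1 h2 _ hg') using 1
        group }
  have hMD : D1 L (M : Set S) :=
    DP.ex (r := fun (v : Fin 1 → S) d => (T.φ i d = d ∧ T.φ j d = d) ∧ v 0 * d⁻¹ ∈ P)
      (((DP.eq ((hT i).comp (DF.var _)) (DF.var _)).and
        (DP.eq ((hT j).comp (DF.var _)) (DF.var _))).and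
        (hPD.mem (C.dmul (DF.var _) (C.dinv (DF.var _)))))
  obtain ⟨F', hF', -, hc'⟩ := cover_of_relIndex hPi
  have hJM : ∀ x ∈ T.J i, x ∈ M := fun x hx =>
    C.fixed_le h (hT i) (T.sq i) hMD (by
      rintro m ⟨d, ⟨h1, -⟩, hm⟩
      have := hNi _ (hPN hm)
      rwa [map_mul, map_inv, h1, mul_left_inj] at this) hF' (fun c hc => by
      obtain ⟨x, hx, d, h1, h2, rfl⟩ := dec_fixed h hij hc
      obtain ⟨t, ht, h3⟩ := hc' x (hJN hx)
      exact ⟨t, ht, d, ⟨h1, h2⟩, by simpa [mul_assoc] using h3⟩) hx.1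
  have hNP : N ≤ P := (Subgroup.closure_le _).2 fun y hy => by
    have hx : rt y ∈ T.J i := Tri.mem_J hij (by rw [h.map_rt, hy.1])
      (by rw [h.map_rt, hy.2 j hij.symm, h.rt_inv])
    obtain ⟨d, ⟨-, h2⟩, hp⟩ := hJM _ hx
    have := P.mul_mem hp (P.inv_mem (invj _ hp))
    rw [map_mul, map_inv, h2, hx.2 j hij.symm] at this
    rwa [show rt y * d⁻¹ * ((rt y)⁻¹ * d⁻¹)⁻¹ = rt y * rt y by group, h.rt_sq] at this
  have conn : ∀ Q : Subgroup S, D1 L (Q : Set S) → Q.relIndex N ≠ 0 → N ≤ Q := fun Q h1 h2 =>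
    hNP.trans (hP Q h1 h2)
  obtain ⟨r, hr, hr'⟩ := exists_rank C.fin (X := (N : Set S)) ⟨1, N.one_mem⟩
  obtain ⟨A, hAJ, hA⟩ := exists_irr (dJ C hT i) (C.rank_of_cover hF (dJ C hT i) cover hr)
    fun h1 => hr' (h1.mono hJN)
  obtain ⟨H, hHN, hHi, hH⟩ := C.exists_stab hA (hAJ.trans hJN) hr'
  have hcen : H ≤ Subgroup.centralizer N := by
    intro g hg
    obtain ⟨x₀, hx₀⟩ := (hH g hg).nonempty
    have key : ∀ x ∈ A ∩ tr g A, (T.φ j g)⁻¹ = x⁻¹ * g * x := fun x hx => by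
      have e := (hAJ hx.2).2 j hij.symm
      rw [map_mul, map_inv, (hAJ hx.1).2 j hij.symm] at e
      rw [show (T.φ j g)⁻¹ = (T.φ j g)⁻¹ * x⁻¹ * x by group, e]
      group
    have hQ : D1 L ((N ⊓ Subgroup.centralizer {g} : Subgroup S) : Set S) := by
      have : D1 L {x : S | x * g = g * x} :=
        DP.eq (C.dmul (DF.var _) (DF.const _)) (C.dmul (DF.const _) (DF.var _))
      convert hND.inter this using 1
      ext x
      simp [Subgroup.mem_centralizer_singleton_iff]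
    have h1 : RankGe L S r (N ⊓ Subgroup.centralizer {g} : Subgroup S) :=
      (hH g hg).maps (h := fun x => x * x₀⁻¹) (C.dmul (DF.var _) (DF.const _))
        (mul_left_injective _).injOn fun x hx =>
          ⟨N.mul_mem (hJN (hAJ hx.1)) (N.inv_mem (hJN (hAJ hx₀.1))),
            Subgroup.mem_centralizer_singleton_iff.2 (by
              have e := (key x hx).symm.trans (key x₀ hx₀)
              calc x * x₀⁻¹ * g = x * (x₀⁻¹ * g * x₀) * x₀⁻¹ := by group
                _ = _ := by rw [← e]; group)⟩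
    exact Subgroup.mem_centralizer_iff.2 fun y hy => Subgroup.mem_centralizer_singleton_iff.1
      (conn _ hQ (C.relIndex_of_rank hQ inf_le_left h1 hr') hy).2
  have hZ : D1 L ((Subgroup.centralizer N : Subgroup S) : Set S) :=
    DP.all (r := fun (v : Fin 1 → S) y => y ∈ (N : Set S) → y * v 0 = v 0 * y)
      ((hND.mem (DF.var _)).imp
        (DP.eq (C.dmul (DF.var _) (DF.var _)) (C.dmul (DF.var _) (DF.var _))))
  intro x hx y hy
  exact Subgroup.mem_centralizer_iff.1 (conn _ hZ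
    (fun h0 => hHi (Subgroup.relIndex_eq_zero_of_le_left hcen h0)) (hJN hy)) x (hJN hx)

theorem main : ∃ i, {x | x ∈ Subgroup.closure (T.J i) ∧ ∀ j, T.φ j x = x}.Infinite := by
  by_contra hc
  push Not at hc
  refine not_comm C h hT fun i => ?_
  obtain ⟨j, hij⟩ := exists_ne i
  obtain ⟨k, hjk, hik⟩ := Tri.third hij.symm
  refine comm_of_finite C h hT hij.symm ((hc i).subset fun x hx => ⟨hx.1, fun l => ?_⟩)
  have h1 : T.φ i x = x :=
    (Subgroup.closure_le (MonoidHom.eqLocus (T.φ i).toMonoidHom (MonoidHom.id S))).2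
      (fun x hx => hx.1) hx.1
  rcases Tri.cover hij.symm hjk hik l with rfl | rfl | rfl
  · exact h1
  · exact hx.2
  · rw [← T.mul i j l hij.symm hjk hik, hx.2, h1]

end Pool.Agent.MP_fcbc9a_lc

end
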